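import Pool.Agent.X172.GR.Stm

/-! Project GR (MP_eff4ce_al), part COM: readable words which commute are equivalent. -/

set_option autoImplicit false

namespace Pool.Agent.X82.GR

open Pool.Agent.X172.GR

theorem rd_get {T : ℕ → Fin 6} : ∀ (w : List Ltr) (i j : ℕ) (a : Ltr), Rd T i w → w[j]? = some a →
    a.1 = T (i + j)
  | [], i, j, a, _, h => by simp at h
  | b :: w, i, 0, a, hr, h => by
      simp only [List.length_cons, Nat.zero_lt_succ, List.getElem?_eq_getElem, List.getElem_cons_zero,
        Option.some.injEq] at h
      subst h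
      simpa using hr.1
  | b :: w, i, j+1, a, hr, h => by
      have := rd_get w (i+1) j a hr.2 (by simpa using h)
      rw [this]; congr 1; omega

theorem rd_append {T : ℕ → Fin 6} : ∀ (p r : List Ltr) (i : ℕ),
    Rd T i (p ++ r) ↔ Rd T i p ∧ Rd T (i + p.length) r
  | [], r, i => by simp [Rd]
  | a :: p, r, i => by
      simp only [List.cons_append, Rd, rd_append p r (i+1), List.length_cons]
      rw [show i + 1 + p.length = i + (p.length + 1) by omega]; tauto

theorem readable_prefix {T : ℕ → Fin 6} {p w : List Ltr} (h : p <+: w) (hw : Readable T w) :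
    Readable T p := by
  obtain ⟨r, rfl⟩ := h
  obtain ⟨i, hi⟩ := hw
  exact ⟨i, ((rd_append p r i).1 hi).1⟩

theorem readable_suffix {T : ℕ → Fin 6} {p w : List Ltr} (h : p <:+ w) (hw : Readable T w) :
    Readable T p := by
  obtain ⟨r, rfl⟩ := h
  obtain ⟨i, hi⟩ := hw
  exact ⟨_, ((rd_append r p i).1 hi).2⟩

theorem not_mem {n : ℕ} {T : ℕ → Fin 6} (hT : Ty n T) {w : List Ltr} (hw : Readable T w) (b : Bool) :
    ((5 : Fin 6), b) ∉ w := by
  intro hm
  obtain ⟨i, hi⟩ := hw
  obtain ⟨j, hj⟩ := List.mem_iff_getElem?.1 hm
  exact hT.ne5 (i + j) (rd_get w i j _ hi hj).symm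

theorem sq {n : ℕ} {T : ℕ → Fin 6} (hT : Ty n T) (i q : ℕ) (h0 : 0 < q) (hq : q < n)
    (h : ∀ j, j < q → T (i + j) = T (i + q + j)) : False := by
  obtain ⟨j, hj, hne⟩ := hT.sqf i q h0 (Nat.not_dvd_of_pos_of_lt h0 hq)
  exact hne (h j hj)

theorem uniq {n : ℕ} {T : ℕ → Fin 6} (hn : 4 ≤ n) (hT : Ty n T) (a b : ℕ)
    (h : ∀ j, j < n → T (a + j) = T (b + j)) : a ≡ b [MOD n] := by
  have hlt : a % n < n := Nat.mod_lt _ (by omega)
  have hj : n - 1 - a % n < n := by omega
  have h1 := h _ hj
  have h2 : n ∣ a + (n - 1 - a % n) + 1 := by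
    refine ⟨a / n + 1, ?_⟩
    have := Nat.div_add_mod a n
    rw [Nat.mul_add, Nat.mul_one]; omega
  have h3 : T (a + (n - 1 - a % n)) = 4 := (hT.hash _).2 h2
  rw [h1] at h3
  have h4 := (hT.hash _).1 h3
  have h5 : a + ((n - 1 - a % n) + 1) ≡ b + ((n - 1 - a % n) + 1) [MOD n] := by
    rw [← Nat.add_assoc, ← Nat.add_assoc]
    exact ((Nat.modEq_zero_iff_dvd).2 h2).trans ((Nat.modEq_zero_iff_dvd).2 h4).symm
  exact Nat.ModEq.add_right_cancel' _ h5

theorem agree {X Y p : List Ltr} {d : Ltr} (hl : X.length = Y.length) (h1 : p <+: X ++ [d])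
    (h2 : p <+: Y ++ [d]) (j : ℕ) (hj : j < p.length) : X[j]? = Y[j]? := by
  have e1 : (X ++ [d])[j]? = p[j]? := by
    obtain ⟨r, hr⟩ := h1
    rw [← hr, List.getElem?_append_left hj]
  have e2 : (Y ++ [d])[j]? = p[j]? := by
    obtain ⟨r, hr⟩ := h2
    rw [← hr, List.getElem?_append_left hj]
  by_cases hX : j < X.length
  · rw [List.getElem?_append_left hX] at e1
    rw [List.getElem?_append_left (hl ▸ hX)] at e2
    rw [e1, e2]
  · rw [List.getElem?_eq_none (by omega), List.getElem?_eq_none (by omega)]

theorem agree1 {n : ℕ} {T : ℕ → Fin 6} {s t : List Ltr} (hs : Readable T s) (ht : Readable T t)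
    (h : LE n T (s ++ t ++ [(5, false)]) (t ++ s ++ [(5, false)])) :
    ∀ j, j < n → (j ≤ s.length ∨ j ≤ t.length) → (s ++ t)[j]? = (t ++ s)[j]? := by
  intro j hj hm
  rcases h with h | ⟨p, h1, h2, h3⟩
  · rw [List.append_cancel_right h]
  · refine agree (by simp [Nat.add_comm]) h1 h2 j ?_
    rcases h3 with h3 | h3
    · by_contra hlt
      apply h3
      rcases hm with hm | hm
      · exact readable_prefix (List.prefix_of_prefix_length_le h1
          (by rw [List.append_assoc]; exact List.prefix_append _ _) (by omega)) hs
      · exact readable_prefix (List.prefix_of_prefix_length_le h2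
          (by rw [List.append_assoc]; exact List.prefix_append _ _) (by omega)) ht
    · omega

theorem agree2 {n : ℕ} {T : ℕ → Fin 6} (hT : Ty n T) {s t : List Ltr} (hs : Readable T s)
    (ht : Readable T t)
    (h : RE n T ((5, false) :: (s ++ t)) ((5, false) :: (t ++ s))) :
    ∀ j, j < n → (j ≤ s.length ∨ j ≤ t.length) →
      (s ++ t).reverse[j]? = (t ++ s).reverse[j]? := by
  intro j hj hm
  have key : ∀ q : List Ltr, q <:+ (5, false) :: (s ++ t) → q <:+ (5, false) :: (t ++ s) →
      (¬ Readable T q ∨ q.length = n) → (s ++ t).reverse[j]? = (t ++ s).reverse[j]? := by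
    intro q h1 h2 h3
    have h1' : q.reverse <+: (s ++ t).reverse ++ [(5, false)] := by
      rw [← List.reverse_cons]; exact List.reverse_prefix.2 h1
    have h2' : q.reverse <+: (t ++ s).reverse ++ [(5, false)] := by
      rw [← List.reverse_cons]; exact List.reverse_prefix.2 h2
    refine agree (by simp [Nat.add_comm]) h1' h2' j ?_
    rw [List.length_reverse]
    rcases h3 with h3 | h3
    · by_contra hlt
      apply h3
      rcases hm with hm | hm
      · exact readable_suffix (List.suffix_of_suffix_length_le h2
          ((List.suffix_append _ _).trans (List.suffix_cons _ _)) (by omega)) hs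
      · exact readable_suffix (List.suffix_of_suffix_length_le h1
          ((List.suffix_append _ _).trans (List.suffix_cons _ _)) (by omega)) ht
    · omega
  rcases h with h | ⟨q, h1, h2, h3⟩ | ⟨h, m, z, z', hz, hz', hzz⟩
  · have := (List.cons.inj h).2
    rw [this]
  · exact key q h1 h2 (Or.inl h3)
  · have hsuf : ∀ (w z : List Ltr), Suf n T w h m z → z <:+ w ∧ z.length = n := by
      rintro w z ⟨v, _, _, _, hzv, hzl, hw⟩
      refine ⟨?_, hzl⟩
      rcases hw with ⟨_, rfl⟩ | ⟨a, y, _, rfl, _⟩
      · exact hzv
      · exact hzv.trans ((List.suffix_cons _ _).trans (List.suffix_append _ _))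
    have hh : h ≠ some (5, true) := by
      intro hh
      obtain ⟨v, _, _, _, _, _, hw⟩ := hz
      rcases hw with ⟨h0, _⟩ | ⟨a, y, ha, hw, _⟩
      · rw [h0] at hh; exact absurd hh (by simp)
      · rw [hh] at ha
        have ha' : a = (5, true) := (Option.some.inj ha).symm
        have : ((5 : Fin 6), true) ∈ ((5 : Fin 6), false) :: (s ++ t) := by
          rw [hw, ha']; simp
        rcases List.mem_cons.1 this with h5 | h5
        · exact absurd h5 (by decide)
        · rcases List.mem_append.1 h5 with h5 | h5
          · exact not_mem hT hs true h5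
          · exact not_mem hT ht true h5
    have hz1 := hsuf _ _ hz
    have hz2 := hsuf _ _ hz'
    rcases hzz with rfl | ⟨h5, _⟩
    · exact key z hz1.1 hz2.1 (Or.inr hz1.2)
    · exact absurd h5 hh

theorem typ_eq {T : ℕ → Fin 6} {s t : List Ltr} {i' i j k : ℕ} (hs : Rd T i' s) (ht : Rd T i t)
    (hj : j < s.length) (h : s[j]? = t[k]?) : T (i' + j) = T (i + k) := by
  obtain ⟨a, ha⟩ : ∃ a, s[j]? = some a := ⟨s[j], List.getElem?_eq_getElem hj⟩
  rw [← rd_get s i' j a hs ha, ← rd_get t i k a ht (h ▸ ha)]

theorem core {n : ℕ} {T : ℕ → Fin 6} (hn : 4 ≤ n) (hT : Ty n T) {s t : List Ltr} (hs0 : s ≠ [])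
    {i' i : ℕ} (hs : Rd T i' s) (ht : Rd T i t) (hle : s.length ≤ t.length)
    (h1 : ∀ j, j < n → j ≤ t.length → (s ++ t)[j]? = (t ++ s)[j]?)
    (h2 : ∀ j, j < n → j ≤ t.length → (s ++ t).reverse[j]? = (t ++ s).reverse[j]?) :
    s = t ∨ (n ≤ s.length ∧ n ≤ t.length ∧ (∀ j, j < n → s[j]? = t[j]?) ∧
      (∀ j, j < n → s.reverse[j]? = t.reverse[j]?) ∧ s.length % n = t.length % n) := by
  have hp0 : 0 < s.length := List.length_pos_iff.2 hs0
  by_cases hM : t.length < n
  · left
    have hAB : s ++ t = t ++ s := by
      apply List.ext_getElem?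
      intro j
      by_cases hj : j ≤ t.length
      · exact h1 j (by omega) hj
      · by_cases hj2 : j < s.length + t.length
        · have := h2 (s.length + t.length - 1 - j) (by omega) (by omega)
          rw [List.getElem?_reverse (by simp; omega), List.getElem?_reverse (by simp; omega)] at this
          simp only [List.length_append] at this
          rw [show s.length + t.length - 1 - (s.length + t.length - 1 - j) = j by omega,
            show t.length + s.length - 1 - (s.length + t.length - 1 - j) = j by omega] at this
          exact this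
        · rw [List.getElem?_eq_none (by simp; omega), List.getElem?_eq_none (by simp; omega)]
    by_contra hne
    have hlt : s.length < t.length := by
      rcases Nat.lt_or_ge s.length t.length with h | h
      · exact h
      · exact absurd (List.append_inj_left hAB (by omega)) hne
    have g : ∀ j : ℕ, (s ++ t)[j]? = (t ++ s)[j]? := fun j => by rw [hAB]
    have r1 : ∀ j, j < s.length → s[j]? = t[j]? := by
      intro j hj
      have := g j
      rwa [List.getElem?_append_left hj, List.getElem?_append_left (by omega)] at this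
    have r2 : ∀ j, j + s.length < t.length → t[j]? = t[s.length + j]? := by
      intro j hj
      have := g (s.length + j)
      rw [List.getElem?_append_right (by omega), List.getElem?_append_left (by omega)] at this
      rwa [show s.length + j - s.length = j by omega] at this
    have r3 : ∀ j, j < s.length → t[t.length - s.length + j]? = s[j]? := by
      intro j hj
      have := g (t.length + j)
      rw [List.getElem?_append_right (by omega), List.getElem?_append_right (by omega)] at this
      rwa [show t.length + j - s.length = t.length - s.length + j by omega,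
        show t.length + j - t.length = j by omega] at this
    rcases Nat.lt_or_ge t.length (2 * s.length) with h | h
    · refine sq hT i (t.length - s.length) (by omega) (by omega) ?_
      intro j hj
      have := typ_eq ht ht (j := j) (k := t.length - s.length + j) (by omega)
        (by rw [r3 j (by omega), r1 j (by omega)])
      rw [this, Nat.add_assoc]
    · refine sq hT i s.length hp0 (by omega) ?_
      intro j hj
      have := typ_eq ht ht (j := j) (k := s.length + j) (by omega) (r2 j (by omega))
      rw [this, Nat.add_assoc]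
  · right
    have hM' : n ≤ t.length := by omega
    have hsn : n ≤ s.length := by
      by_contra hsn
      have r2 : ∀ j, j + s.length < n → t[j]? = t[s.length + j]? := by
        intro j hj
        have := h1 (s.length + j) (by omega) (by omega)
        rw [List.getElem?_append_right (by omega), List.getElem?_append_left (by omega)] at this
        rwa [show s.length + j - s.length = j by omega] at this
      refine sq hT (i + s.length) (n - s.length) (by omega) (by omega) ?_
      intro j hj
      have := typ_eq ht ht (j := j) (k := s.length + j) (by omega) (r2 j (by omega))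
      rw [Nat.add_assoc, ← this, show i + s.length + (n - s.length) + j = i + j + n by omega, hT.per]
    have f1 : ∀ j, j < n → s[j]? = t[j]? := by
      intro j hj
      have := h1 j hj (by omega)
      rwa [List.getElem?_append_left (by omega), List.getElem?_append_left (by omega)] at this
    have f2 : ∀ j, j < n → s.reverse[j]? = t.reverse[j]? := by
      intro j hj
      have := h2 j hj (by omega)
      rw [List.reverse_append, List.reverse_append,
        List.getElem?_append_left (by simp; omega), List.getElem?_append_left (by simp; omega)] at this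
      exact this.symm
    refine ⟨hsn, hM', f1, f2, ?_⟩
    have u1 : i' ≡ i [MOD n] := uniq hn hT _ _ fun j hj => typ_eq hs ht (by omega) (f1 j hj)
    have u2 : i' + (s.length - n) ≡ i + (t.length - n) [MOD n] := by
      refine uniq hn hT _ _ fun j hj => ?_
      have := f2 (n - 1 - j) (by omega)
      rw [List.getElem?_reverse (by omega), List.getElem?_reverse (by omega)] at this
      have := typ_eq hs ht (by omega) this
      rw [show i' + (s.length - n) + j = i' + (s.length - 1 - (n - 1 - j)) by omega,
        show i + (t.length - n) + j = i + (t.length - 1 - (n - 1 - j)) by omega]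
      exact this
    have u3 : s.length - n ≡ t.length - n [MOD n] := Nat.ModEq.add_left_cancel u1 u2
    have u4 : s.length - n + n ≡ t.length - n + n [MOD n] := Nat.ModEq.add_right n u3
    rw [Nat.sub_add_cancel hsn, Nat.sub_add_cancel hM'] at u4
    exact u4

theorem E_of {n : ℕ} {T : ℕ → Fin 6} {s t : List Ltr} (hs : Readable T s) (ht : Readable T t)
    (h : s = t ∨ (n ≤ s.length ∧ n ≤ t.length ∧ (∀ j, j < n → s[j]? = t[j]?) ∧
      (∀ j, j < n → s.reverse[j]? = t.reverse[j]?) ∧ s.length % n = t.length % n)) : E n T s t := by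
  rcases h with rfl | ⟨h1, h2, h3, h4, h5⟩
  · exact ⟨Or.inl rfl, Or.inl rfl⟩
  · have ext : ∀ x y : List Ltr, (∀ j, j < n → x[j]? = y[j]?) → x.take n = y.take n := by
      intro x y hxy
      apply List.ext_getElem?
      intro j
      rw [List.getElem?_take, List.getElem?_take]
      split_ifs with hj
      · exact hxy j hj
      · rfl
    constructor
    · right
      refine ⟨s.take n, List.take_prefix _ _, ?_, Or.inr (by simp; omega)⟩
      rw [ext s t h3]
      exact List.take_prefix _ _
    · right; right
      refine ⟨none, s.length % n, (s.reverse.take n).reverse, (s.reverse.take n).reverse,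
        ⟨s, hs, h1, rfl, ?_, by simp; omega, Or.inl ⟨rfl, rfl⟩⟩,
        ⟨t, ht, h2, h5.symm, ?_, by simp; omega, Or.inl ⟨rfl, rfl⟩⟩, Or.inl rfl⟩
      · rw [← List.reverse_prefix, List.reverse_reverse]
        exact List.take_prefix _ _
      · rw [← List.reverse_prefix, List.reverse_reverse, ext s.reverse t.reverse h4]
        exact List.take_prefix _ _

theorem t_COM : S_COM := by
  intro n T hn hT s t hs0 ht0 hs ht hL hR
  have a1 := agree1 hs ht hL
  have a2 := agree2 hT hs ht hR
  obtain ⟨i', hs'⟩ := hs
  obtain ⟨i, ht'⟩ := ht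
  rcases Nat.le_total s.length t.length with h | h
  · exact E_of ⟨i', hs'⟩ ⟨i, ht'⟩ (core hn hT hs0 hs' ht' h (fun j hj hm => a1 j hj (Or.inr hm))
      (fun j hj hm => a2 j hj (Or.inr hm)))
  · have := core hn hT ht0 ht' hs' h (fun j hj hm => (a1 j hj (Or.inl hm)).symm)
      (fun j hj hm => (a2 j hj (Or.inl hm)).symm)
    refine E_of ⟨i', hs'⟩ ⟨i, ht'⟩ ?_
    rcases this with h | ⟨h1, h2, h3, h4, h5⟩
    · exact Or.inl h.symm
    · exact Or.inr ⟨h2, h1, fun j hj => (h3 j hj).symm, fun j hj => (h4 j hj).symm, h5.symm⟩

end Pool.Agent.X82.GR
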